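import Pool.Agent.H11.LD.Targets
import Pool.Agent.H54.Lap.Spec

/-!
# ldm_modules row FIN (helper2): the theorem
-/

set_option autoImplicit false

open Finset Classical

namespace Pool.Agent.H2.LDM

open Pool.Agent.H9.Lap (HasDom IsLapIndex)
open Pool.Agent.H11.LD

theorem idx_le (hRAY : T_RAY) {V : Type} [Fintype V] [Nonempty V] (G : SimpleGraph V) {μ : ℝ}
    (h : Ub G μ) : ∃ x, IsLapIndex G x ∧ x ≤ μ := by
  obtain ⟨x, hx⟩ := Pool.Agent.H54.Lap.gre V G
  exact ⟨x, hx, (hRAY V G x hx).2 μ h⟩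

theorem pf_FIN (hRAY : T_RAY) (hROOT : T_ROOT) (hCLS : T_CLS) (hMLB : T_MLB) (hUBA : T_UBA)
    (hUBB : T_UBB) (hEXA : T_EXA) (hGEN : T_GEN) : T_FIN := by
  refine ⟨?_, ?_⟩
  · intro g m hg hm
    obtain ⟨μ, hroot, h3, hm1, -, heq, -⟩ := hROOT g m hg hm
    have hcard : Fintype.card (Fin (g * m)) = g * m := Fintype.card_fin _
    have hpos : 0 < g * m := Nat.mul_pos (by omega) (by omega)
    have : Nonempty (Fin (g * m)) := ⟨⟨0, hpos⟩⟩
    have key : ∀ G : SimpleGraph (Fin (g * m)), G.Connected → HasDom G g → Ub G μ →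
        IsLapIndex G μ := by
      intro G hc hd hu
      obtain ⟨x, hx, hxμ⟩ := idx_le hRAY G hu
      have h1 := hMLB _ G g m μ x hg hm hcard hc hd hroot (hRAY _ G x hx).1
      have h2 : x = μ := le_antisymm hxμ h1
      rw [← h2]
      exact hx
    refine ⟨μ, hroot, ⟨?_, ?_⟩, ?_⟩
    · have h1 : g * (m - 1) < g * m := Nat.mul_lt_mul_of_pos_left (by omega) (by omega)
      have h2 : 3 * g ≤ g * m := by rw [Nat.mul_comm]; exact Nat.mul_le_mul_left g hm
      obtain ⟨G, hc, hd, hu⟩ := hEXA g m (g * m) μ hg hm h1 le_rfl h2 hroot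
      exact ⟨G, hc, hd, key G hc hd hu⟩
    · rintro x ⟨G, hc, hd, hx⟩
      exact hMLB _ G g m μ x hg hm hcard hc hd hroot (hRAY _ G x hx).1
    · intro G hc hd
      constructor
      · intro h
        exact hCLS _ G g m μ hg hm hcard hc hd hroot (hRAY _ G μ h).1
      · rintro ⟨e, P, Q, hP, hQ, hstr⟩
        apply key G hc hd
        intro f
        let x : ℕ → ℕ → ℝ := fun i j =>
          if h : i < g ∧ j < m then f (e.symm (⟨i, h.1⟩, ⟨j, h.2⟩)) else 0
        have hx : ∀ v, x ((e v).1 : ℕ) ((e v).2 : ℕ) = f v := by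
          intro v
          have h : ((e v).1 : ℕ) < g ∧ ((e v).2 : ℕ) < m := ⟨(e v).1.2, (e v).2.2⟩
          simp only [x]
          rw [dif_pos h]
          have h5 : ((⟨((e v).1 : ℕ), h.1⟩, ⟨((e v).2 : ℕ), h.2⟩) : Fin g × Fin m) = e v := rfl
          rw [h5, Equiv.symm_apply_apply]
        have hP3 : P → 3 ≤ g := by
          intro hp
          obtain ⟨k, hk⟩ := hP hp
          omega
        have hQ3 : Q → Odd g ∧ 3 ≤ g := by
          intro hq
          obtain ⟨⟨k, hk⟩, -⟩ := hQ hq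
          exact ⟨⟨k, hk⟩, by omega⟩
        obtain ⟨h6, h7⟩ := hUBA _ G g m e P Q hg hm hP3 hQ3 hstr f x hx
        rw [h7]
        exact h6.trans (hUBB g m P Q μ x hg hm h3 hm1 heq hP hQ)
  · intro g m n hg hm hn1 hn2 hn3
    obtain ⟨μ, hroot, -⟩ := hROOT g m hg hm
    have : Nonempty (Fin n) := ⟨⟨0, by omega⟩⟩
    obtain ⟨G₀, hc₀, hd₀, hu₀⟩ := hEXA g m n μ hg hm hn1 hn2 hn3 hroot
    obtain ⟨x₀, hx₀, hx₀μ⟩ := idx_le hRAY G₀ hu₀
    set S : Set ℝ := {x : ℝ | ∃ G : SimpleGraph (Fin n), G.Connected ∧ HasDom G g ∧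
      IsLapIndex G x} with hS
    have hne : S.Nonempty := ⟨x₀, G₀, hc₀, hd₀, hx₀⟩
    have hfin : S.Finite := by
      choose F hF using fun G : SimpleGraph (Fin n) => Pool.Agent.H54.Lap.gre (Fin n) G
      refine (Set.finite_range F).subset ?_
      rintro x ⟨G, -, -, hx⟩
      exact ⟨G, (hF G).unique hx⟩
    obtain ⟨x, hxS, hmin⟩ := Set.exists_min_image S id hfin hne
    obtain ⟨G, hc, hd, hx⟩ := hxS
    refine ⟨x, μ, ⟨⟨G, hc, hd, hx⟩, fun y hy => hmin y hy⟩, hroot, ?_, ?_⟩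
    · exact hGEN _ G g m x hg (by omega) (by rw [Fintype.card_fin]; exact hn1) hc hd
        (hRAY _ G x hx).1
    · exact (hmin x₀ ⟨G₀, hc₀, hd₀, hx₀⟩).trans hx₀μ

end Pool.Agent.H2.LDM
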